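import Pool.Agent.W907.SM.Stmts

/-!
SM-T4, part 1: the involutions `s_v` and the `p`-type condition.
-/

set_option autoImplicit false

namespace Pool.Agent.W705.SM

open Module Pool.Agent.W907.SG Pool.Agent.W907.SM

theorem prod_even {Mo V : Type} [Monoid Mo] (f : V → Mo) (h1 : ∀ v, f v * f v = 1)
    (h2 : ∀ u v, f u * f v = f v * f u) :
    ∀ (n : ℕ) (l : List V), l.length ≤ n → EvenWord l → (l.map f).prod = 1 := by
  classical
  intro n
  induction n with
  | zero =>
    intro l hl _
    have : l = [] := List.length_eq_zero_iff.1 (by omega)
    subst this; rfl
  | succ n ih =>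
    intro l hl he
    cases l with
    | nil => rfl
    | cons v l =>
      have hv : v ∈ l := by
        by_contra hv
        have h := he (fun u => if u = v then -1 else 1)
        rw [List.map_cons, List.prod_cons, if_pos rfl] at h
        have h3 : (l.map (fun u => if u = v then (-1 : ℤˣ) else 1)).prod = 1 := by
          apply List.prod_eq_one
          intro x hx
          rw [List.mem_map] at hx
          obtain ⟨u, hu, rfl⟩ := hx
          rw [if_neg]
          rintro rfl
          exact hv hu
        rw [h3] at h
        revert h; decide
      have hp : (v :: l).Perm (v :: v :: l.erase v) := (List.perm_cons_erase hv).cons v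
      have he' : EvenWord (l.erase v) := by
        intro χ
        have h := he χ
        rw [((hp.map χ).prod_eq)] at h
        rw [List.map_cons, List.map_cons, List.prod_cons, List.prod_cons, ← mul_assoc,
          Int.units_mul_self, one_mul] at h
        exact h
      have h3 := ih (l.erase v) (by
        have := List.length_erase_of_mem hv
        simp only [List.length_cons] at hl
        omega) he'
      have h4 : ((v :: l).map f).prod = ((v :: v :: l.erase v).map f).prod := by
        apply (hp.map f).prod_eq'
        rw [List.pairwise_map]
        exact List.pairwise_of_forall (fun a b => h2 a b)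
      rw [h4, List.map_cons, List.map_cons, List.prod_cons, List.prod_cons, ← mul_assoc, h1,
        one_mul, h3]

section ops
variable {C R : Type} [DecidableEq C] [CommRing R]

/-- the operator given by a `2 × 2` matrix in the colour `c` -/
def op (c : C) (A : Bool → Bool → R) : Module.End R ((C → Bool) → R) where
  toFun f ε := A (ε c) false * f (Function.update ε c false) +
    A (ε c) true * f (Function.update ε c true)
  map_add' f g := by funext ε; simp only [Pi.add_apply]; ring
  map_smul' r f := by funext ε; simp only [Pi.smul_apply, smul_eq_mul, RingHom.id_apply]; ring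

theorem op_apply (c : C) (A : Bool → Bool → R) (f : (C → Bool) → R) (ε : C → Bool) :
    op c A f ε = A (ε c) false * f (Function.update ε c false) +
      A (ε c) true * f (Function.update ε c true) := rfl

/-- product of matrices -/
def cmpM (A B : Bool → Bool → R) : Bool → Bool → R :=
  fun x y => A x false * B false y + A x true * B true y

theorem op_mul (c : C) (A B : Bool → Bool → R) : op c A * op c B = op c (cmpM A B) := by
  refine LinearMap.ext fun f => funext fun ε => ?_
  rw [Module.End.mul_apply, op_apply, op_apply, op_apply, op_apply, Function.update_self,
    Function.update_self, Function.update_idem, Function.update_idem, Function.update_idem,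
    Function.update_idem]
  simp only [cmpM]
  ring

theorem op_comm (c d : C) (h : c ≠ d) (A B : Bool → Bool → R) : op c A * op d B = op d B * op c A := by
  refine LinearMap.ext fun f => funext fun ε => ?_
  rw [Module.End.mul_apply, Module.End.mul_apply]
  simp only [op_apply]
  rw [Function.update_of_ne h.symm, Function.update_of_ne h.symm, Function.update_of_ne h,
    Function.update_of_ne h, Function.update_comm h, Function.update_comm h,
    Function.update_comm h, Function.update_comm h]
  ring

theorem op_one (c : C) : op c (fun x y => if x = y then (1 : R) else 0) = 1 := by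
  refine LinearMap.ext fun f => funext fun ε => ?_
  rw [op_apply, Module.End.one_apply]
  cases h : ε c
  · rw [← h, Function.update_eq_self, h]; simp
  · rw [← h, Function.update_eq_self, h]; simp

/-- the matrix of the involution with `-1`-line of slope `t` and `+1`-line of slope `t'` -/
def Sm (t t' ui : R) : Bool → Bool → R
  | false, false => -1 - 2 * ui * t
  | false, true => 2 * ui
  | true, false => -(ui * t * (t + t')) - t
  | true, true => ui * (t + t')

theorem Sm_sq {t t' ui : R} (h : (t' - t) * ui = 1) :
    cmpM (Sm t t' ui) (Sm t t' ui) = fun x y => if x = y then (1 : R) else 0 := by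
  funext x y
  cases x <;> cases y <;> simp only [cmpM, Sm]
  · simp only [if_true]; linear_combination (-2 * ui * t) * h
  · rw [if_neg (by decide)]; linear_combination (2 * ui) * h
  · rw [if_neg (by decide)]; linear_combination (-(ui * t * (t + t')) - t) * h
  · simp only [if_true]; linear_combination (ui * (t + t') + 1) * h

theorem neg_iff {c : C} {t t' ui hf : R} (h : (t' - t) * ui = 1) (h2 : 2 * hf = 1)
    (a : (C → Bool) → R) : op c (Sm t t' ui) a = -a ↔ OnLine c t a := by
  constructor
  · intro ha ε
    have h3 := congrFun ha (Function.update ε c false)
    rw [op_apply, Pi.neg_apply, Function.update_self, Function.update_idem,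
      Function.update_idem] at h3
    simp only [Sm] at h3
    linear_combination (hf * (t' - t)) * h3 +
      (-(2 * hf) * (a (Function.update ε c true) - t * a (Function.update ε c false))) * h -
      (a (Function.update ε c true) - t * a (Function.update ε c false)) * h2
  · intro ha
    funext ε
    rw [op_apply, Pi.neg_apply, ha ε]
    cases h' : ε c
    · simp only [Sm]
      have : a ε = a (Function.update ε c false) := by rw [← h', Function.update_eq_self]
      rw [this]
      ring
    · simp only [Sm]
      have : a ε = t * a (Function.update ε c false) := by
        rw [← ha ε, ← h', Function.update_eq_self]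
      rw [this]
      ring

theorem pos_iff {c : C} {t t' ui hf : R} (h : (t' - t) * ui = 1) (h2 : 2 * hf = 1)
    (a : (C → Bool) → R) : op c (Sm t t' ui) a = a ↔ OnLine c t' a := by
  constructor
  · intro ha ε
    have h3 := congrFun ha (Function.update ε c false)
    rw [op_apply, Function.update_self, Function.update_idem,
      Function.update_idem] at h3
    simp only [Sm] at h3
    linear_combination (hf * (t' - t)) * h3 +
      (-(2 * hf) * (a (Function.update ε c true) - t * a (Function.update ε c false))) * h -
      (a (Function.update ε c true) - t' * a (Function.update ε c false)) * h2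
  · intro ha
    funext ε
    rw [op_apply, ha ε]
    cases h' : ε c
    · simp only [Sm]
      have : a ε = a (Function.update ε c false) := by rw [← h', Function.update_eq_self]
      rw [this]
      linear_combination (2 * a (Function.update ε c false)) * h
    · simp only [Sm]
      have : a ε = t' * a (Function.update ε c false) := by
        rw [← ha ε, ← h', Function.update_eq_self]
      rw [this]
      linear_combination ((t + t') * a (Function.update ε c false)) * h

/-- the matrix modulo `X` -/
def Pm : Bool → Bool → R
  | false, false => -1
  | false, true => 2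
  | true, false => 0
  | true, true => 1

theorem Pm_sq : cmpM (Pm : Bool → Bool → R) Pm = fun x y => if x = y then (1 : R) else 0 := by
  funext x y
  cases x <;> cases y <;> simp [cmpM, Pm]

/-- the rest -/
def Hm (x α β ui : R) : Bool → Bool → R
  | false, false => -2 * ui * α
  | false, true => -2 * (β - α) * ui
  | true, false => -(ui * α * (1 + x * (α + β))) - α
  | true, true => 2 * α * ui

theorem Sm_eq {x α β ui : R} (h : ((1 + x * β) - x * α) * ui = 1) (y z : Bool) :
    Sm (x * α) (1 + x * β) ui y z = Pm y z + x * Hm x α β ui y z := by
  cases y <;> cases z <;> simp only [Sm, Pm, Hm]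
  · ring
  · linear_combination 2 * h
  · ring
  · linear_combination h

theorem op_Sm {c : C} {x α β ui : R} (h : ((1 + x * β) - x * α) * ui = 1) :
    op c (Sm (x * α) (1 + x * β) ui) = op c Pm + x • op c (Hm x α β ui) := by
  refine LinearMap.ext fun f => funext fun ε => ?_
  rw [LinearMap.add_apply, LinearMap.smul_apply, Pi.add_apply, Pi.smul_apply, op_apply, op_apply,
    op_apply, Sm_eq h, Sm_eq h, smul_eq_mul]
  ring

theorem word {V : Type} (col : V → C) (x : R) (S : V → Bool → Bool → R)
    (H : V → Bool → Bool → R) (hS : ∀ v, op (col v) (S v) = op (col v) Pm + x • op (col v) (H v))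
    (l : List V) : ∃ η : Module.End R ((C → Bool) → R),
      (l.map (fun v => op (col v) (S v))).prod =
        (l.map (fun v => op (col v) (Pm : Bool → Bool → R))).prod + x • η := by
  induction l with
  | nil => exact ⟨0, by simp⟩
  | cons v l ih =>
    obtain ⟨η, hη⟩ := ih
    refine ⟨op (col v) (H v) * (l.map (fun v => op (col v) (Pm : Bool → Bool → R))).prod +
      op (col v) Pm * η + x • (op (col v) (H v) * η), ?_⟩
    rw [List.map_cons, List.prod_cons, hη, hS, List.map_cons, List.prod_cons, add_mul, mul_add,
      mul_add, smul_mul_assoc, mul_smul_comm, smul_mul_assoc, mul_smul_comm, smul_add, smul_add]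
    abel

end ops

theorem unip {p : ℕ} [hp : Fact p.Prime] {A : Type} [Ring A] (hA : (p : A) = 0) (y : A) (N : ℕ)
    (hy : y ^ N = 0) : (1 + y) ^ (p ^ N) = 1 := by
  rcases subsingleton_or_nontrivial A with h | h
  · exact Subsingleton.elim _ _
  · obtain ⟨c, hc⟩ := CharP.exists A
    have h1 : c ∣ p := (CharP.cast_eq_zero_iff A c p).1 hA
    rcases (Nat.dvd_prime hp.out).1 h1 with h2 | h2
    · subst h2
      exact absurd hc (fun h => CharP.false_of_nontrivial_of_char_one (R := A))
    · subst h2
      rw [add_pow_expChar_pow_of_commute _ _ (Commute.one_left y), one_pow,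
        pow_eq_zero_of_le (Nat.lt_pow_self hp.out.one_lt).le hy, add_zero]

theorem ptype_word {p : ℕ} [Fact p.Prime] {C R V : Type} [DecidableEq C] [CommRing R]
    (hR : (p : R) = 0) (col : V → C) (x : R) (N : ℕ) (hx : x ^ N = 0) (S H : V → Bool → Bool → R)
    (hS : ∀ v, op (col v) (S v) = op (col v) Pm + x • op (col v) (H v)) (l : List V)
    (hl : EvenWord l) : (l.map (fun v => op (col v) (S v))).prod ^ (p ^ N) = 1 := by
  obtain ⟨η, hη⟩ := word col x S H hS l
  have h1 : (l.map (fun v => op (col v) (Pm : Bool → Bool → R))).prod = 1 := by
    refine prod_even (fun v => op (col v) (Pm : Bool → Bool → R)) ?_ ?_ l.length l le_rfl hl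
    · intro v
      rw [op_mul, Pm_sq, op_one]
    · intro u v
      by_cases h : col u = col v
      · rw [h]
      · exact op_comm _ _ h _ _
  rw [hη, h1]
  refine unip ?_ _ N ?_
  · refine LinearMap.ext fun f => ?_
    have : ((p : Module.End R ((C → Bool) → R)) f) = (p : R) • f := by
      rw [Module.End.natCast_apply, ← Nat.cast_smul_eq_nsmul R]
    rw [this, hR, zero_smul]
    rfl
  · rw [smul_pow, hx, zero_smul]

end Pool.Agent.W705.SM
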